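import Mathlib
import Pool.Agent.H755R4.Main
import Pool.Agent.H755R4.SU1

/-!
The equation `x ^ n - y ^ n = z ^ (n + 1)` for each single `x` or `y` and almost all values of the
other base, all exponents `n` at once.
-/

namespace Pool.Agent.Results.MP_c98c49_nt.EachBase

open Filter Topology Pool.Agent.H755R4 Pool.Agent.H374R2

/-- `x` and `y` occur in a primitive solution of `x ^ n - y ^ n = z ^ (n + 1)` for some `n ≥ 1` -/
def Occur (x y : ℕ) : Prop := ∃ n z : ℕ, 1 ≤ n ∧ 0 < x ∧ 0 < y ∧ 0 < z ∧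
  Nat.gcd (Nat.gcd x y) z = 1 ∧ x ^ n = y ^ n + z ^ (n + 1)

theorem Occur.cop {x y n z : ℕ} (h : Nat.gcd (Nat.gcd x y) z = 1)
    (heq : x ^ n = y ^ n + z ^ (n + 1)) (hn : 1 ≤ n) : Nat.Coprime x y := by
  rw [Nat.coprime_iff_gcd_eq_one]
  by_contra hne
  obtain ⟨p, hp, hd⟩ := Nat.exists_prime_and_dvd hne
  have h1 : p ∣ x := hd.trans (Nat.gcd_dvd_left _ _)
  have h2 : p ∣ y := hd.trans (Nat.gcd_dvd_right _ _)
  have h3 : p ∣ z ^ (n + 1) := by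
    rw [← Nat.dvd_add_right (dvd_pow h2 (by omega : n ≠ 0)), ← heq]
    exact dvd_pow h1 (by omega)
  have h4 : p ∣ z := hp.dvd_of_dvd_pow h3
  have h5 := Nat.dvd_gcd hd h4
  rw [h] at h5
  exact hp.one_lt.ne' (Nat.dvd_one.mp h5)

/-- small exponents -/
theorem small_count (Z N w : ℕ) (hZ : 2 ≤ Z) (hN : 1 ≤ N) (hw : w ≤ N) :
    {v : ℕ | v ∈ Set.Icc 1 N ∧ ∃ n z : ℕ, 1 ≤ n ∧ n + 1 ≤ Z ∧ 0 < z ∧
      (v ^ n = w ^ n + z ^ (n + 1) ∨ w ^ n = v ^ n + z ^ (n + 1))}.Finite ∧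
    (({v : ℕ | v ∈ Set.Icc 1 N ∧ ∃ n z : ℕ, 1 ≤ n ∧ n + 1 ≤ Z ∧ 0 < z ∧
      (v ^ n = w ^ n + z ^ (n + 1) ∨ w ^ n = v ^ n + z ^ (n + 1))}.ncard : ℕ) : ℝ) ≤
      2 * Z * (N : ℝ) ^ (1 - 1 / (Z : ℝ)) := by
  classical
  have hNR : (1 : ℝ) ≤ N := by exact_mod_cast hN
  have hN0 : (0 : ℝ) < N := by linarith
  have hZR : (2 : ℝ) ≤ Z := by exact_mod_cast hZ
  set M : ℕ := ⌊(N : ℝ) ^ (1 - 1 / (Z : ℝ))⌋₊ with hM
  have hMle : (M : ℝ) ≤ (N : ℝ) ^ (1 - 1 / (Z : ℝ)) := Nat.floor_le (by positivity)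
  set J : Finset (ℕ × ℕ × Bool) := Finset.range Z ×ˢ Finset.Icc 1 M ×ˢ Finset.univ with hJ
  have hJc : J.card = Z * (M * 2) := by
    rw [hJ, Finset.card_product, Finset.card_product, Finset.card_range, Nat.card_Icc,
      Nat.add_sub_cancel, Finset.card_univ, Fintype.card_bool]
  have h := SU.coverG (K := 1) J (fun j => {v : ℕ | 0 < j.1 ∧
    (if j.2.2 then v ^ j.1 = w ^ j.1 + j.2.1 ^ (j.1 + 1) else
      w ^ j.1 = v ^ j.1 + j.2.1 ^ (j.1 + 1))}) (by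
    rintro ⟨n, z, s⟩ _
    have hsub : {v : ℕ | 0 < n ∧ (if s then v ^ n = w ^ n + z ^ (n + 1) else
        w ^ n = v ^ n + z ^ (n + 1))}.Subsingleton := by
      rintro v ⟨hn, h1⟩ v' ⟨_, h2⟩
      cases s
      · simp only [Bool.false_eq_true, if_false] at h1 h2
        exact Nat.pow_left_injective hn.ne' (by show v ^ n = v' ^ n; omega)
      · simp only [if_true] at h1 h2
        exact Nat.pow_left_injective hn.ne' (by show v ^ n = v' ^ n; omega)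
    exact ⟨hsub.finite, (Set.ncard_le_one hsub.finite).mpr fun a ha b hb => hsub ha hb⟩)
    {v : ℕ | v ∈ Set.Icc 1 N ∧ ∃ n z : ℕ, 1 ≤ n ∧ n + 1 ≤ Z ∧ 0 < z ∧
      (v ^ n = w ^ n + z ^ (n + 1) ∨ w ^ n = v ^ n + z ^ (n + 1))} (by
    rintro v ⟨⟨hv1, hvN⟩, n, z, hn, hnZ, hz, h⟩
    have hzM : z ≤ M := by
      apply Nat.le_floor
      have h1 : z ^ (n + 1) ≤ N ^ n := by
        have h2 : v ^ n ≤ N ^ n := Nat.pow_le_pow_left hvN n
        have h3 : w ^ n ≤ N ^ n := Nat.pow_le_pow_left hw n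
        rcases h with h | h <;> omega
      have h2 : (z : ℝ) ^ (n + 1) ≤ (N : ℝ) ^ n := by exact_mod_cast h1
      have hn1 : (0 : ℝ) < (n : ℝ) + 1 := by positivity
      have h3 : (z : ℝ) ≤ (N : ℝ) ^ ((n : ℝ) / (n + 1)) := by
        have h4 : ((z : ℝ) ^ (n + 1)) ^ (1 / ((n : ℝ) + 1)) = z := by
          rw [← Real.rpow_natCast, ← Real.rpow_mul (Nat.cast_nonneg z)]
          push_cast
          rw [mul_one_div_cancel hn1.ne', Real.rpow_one]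
        have h5 : ((N : ℝ) ^ n) ^ (1 / ((n : ℝ) + 1)) = (N : ℝ) ^ ((n : ℝ) / (n + 1)) := by
          rw [← Real.rpow_natCast, ← Real.rpow_mul hN0.le]
          congr 1
          ring
        rw [← h4, ← h5]
        exact Real.rpow_le_rpow (by positivity) h2 (by positivity)
      refine h3.trans (Real.rpow_le_rpow_of_exponent_le hNR ?_)
      have h6 : (n : ℝ) + 1 ≤ Z := by exact_mod_cast hnZ
      have h7 : 1 / (Z : ℝ) ≤ 1 / ((n : ℝ) + 1) := one_div_le_one_div_of_le hn1 h6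
      have h8 : (n : ℝ) / (n + 1) = 1 - 1 / ((n : ℝ) + 1) := by field_simp; ring
      rw [h8]
      linarith
    rcases h with h | h
    · refine ⟨(n, z, true), ?_, by omega, ?_⟩
      · rw [hJ]
        simp only [Finset.mem_product, Finset.mem_range, Finset.mem_Icc, Finset.mem_univ, and_true]
        omega
      · simpa using h
    · refine ⟨(n, z, false), ?_, by omega, ?_⟩
      · rw [hJ]
        simp only [Finset.mem_product, Finset.mem_range, Finset.mem_Icc, Finset.mem_univ, and_true]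
        omega
      · simpa using h)
  refine ⟨h.1, ?_⟩
  have h2 := h.2
  rw [hJc, mul_one] at h2
  have h3 : (({v : ℕ | v ∈ Set.Icc 1 N ∧ ∃ n z : ℕ, 1 ≤ n ∧ n + 1 ≤ Z ∧ 0 < z ∧
      (v ^ n = w ^ n + z ^ (n + 1) ∨ w ^ n = v ^ n + z ^ (n + 1))}.ncard : ℕ) : ℝ) ≤
      Z * (M * 2) := by exact_mod_cast h2
  calc _ ≤ (Z : ℝ) * (M * 2) := h3
    _ ≤ Z * ((N : ℝ) ^ (1 - 1 / (Z : ℝ)) * 2) := by gcongr
    _ = _ := by ring

/-- For every `ε > 0` there is `c > 0` such that for all large `N` there is a set `T` of at most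
`ε N` integers of `[1, N]` with the following property: for every `w ≤ N` there are at most
`N ^ (1 - c)` integers `v` of `[1, N]` outside `T` for which `(x, y) = (v, w)` or `(x, y) = (w, v)`
occurs in a primitive solution of `x ^ n - y ^ n = z ^ (n + 1)` with some `n ≥ 1`. -/
theorem result (ε : ℝ) (hε : 0 < ε) : ∃ c : ℝ, 0 < c ∧ ∃ N₀ : ℕ, ∀ N : ℕ, N₀ ≤ N →
    ∃ T : Set ℕ, T ⊆ Set.Icc 1 N ∧ (T.ncard : ℝ) ≤ ε * N ∧ ∀ w : ℕ, w ≤ N →
      (({v : ℕ | v ∈ Set.Icc 1 N ∧ v ∉ T ∧ (Occur v w ∨ Occur w v)}.ncard : ℕ) : ℝ) ≤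
        (N : ℝ) ^ (1 - c) := by
  classical
  set δ : ℝ := min ε (1 / 2) with hδ
  have hδ0 : 0 < δ := lt_min hε (by norm_num)
  have hδ1 : δ < 1 := lt_of_le_of_lt (min_le_right _ _) (by norm_num)
  obtain ⟨Z₀, L, hcore⟩ := core 1 le_rfl hδ0 hδ1
  set Z : ℕ := max Z₀ 2 with hZ
  have hZ2 : 2 ≤ Z := le_max_right _ _
  have hZ0 : Z₀ ≤ Z := le_max_left _ _
  have hZR : (2 : ℝ) ≤ Z := by exact_mod_cast hZ2
  have hZinv : 1 / (Z : ℝ) ≤ 1 / 2 := one_div_le_one_div_of_le (by norm_num) hZR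
  have hZpos : 0 < 1 / (Z : ℝ) := by positivity
  have ht : Tendsto (fun N : ℕ => (N : ℝ) ^ (1 / (2 * (Z : ℝ)))) atTop atTop :=
    (tendsto_rpow_atTop (by positivity)).comp tendsto_natCast_atTop_atTop
  obtain ⟨N₁, hN₁⟩ := eventually_atTop.mp (ht.eventually_ge_atTop (2 * (Z : ℝ) + 1))
  refine ⟨1 / (2 * (Z : ℝ)), by positivity, max L (max N₁ 1), fun N hN => ?_⟩
  simp only [max_le_iff] at hN
  obtain ⟨g1, g2, g3⟩ := hN
  have hNR : (1 : ℝ) ≤ N := by exact_mod_cast g3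
  have hN0 : (0 : ℝ) < N := by linarith
  obtain ⟨T, hT1, hT2, hT3⟩ := hcore N N 0 g1 (by omega) (by rw [pow_one])
  rw [zero_add] at hT1 hT3
  have hIoc : Set.Ioc 0 N = Set.Icc 1 N := by
    ext v
    simp only [Set.mem_Ioc, Set.mem_Icc]
    omega
  rw [hIoc] at hT1 hT3
  refine ⟨T, hT1, hT2.trans ?_, fun w hw => ?_⟩
  · exact mul_le_mul_of_nonneg_right (min_le_left _ _) hN0.le
  by_cases hw0 : w = 0
  · have : {v : ℕ | v ∈ Set.Icc 1 N ∧ v ∉ T ∧ (Occur v w ∨ Occur w v)} = ∅ := by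
      ext v
      simp only [Set.mem_ofPred_eq, Set.mem_empty_iff_false, iff_false]
      rintro ⟨_, _, h | h⟩
      · obtain ⟨n, z, _, _, h1, _⟩ := h; omega
      · obtain ⟨n, z, _, h1, _⟩ := h; omega
    rw [this, Set.ncard_empty]
    push_cast
    positivity
  obtain ⟨hf, hs⟩ := small_count Z N w hZ2 g3 hw
  have hb := hT3 w (by omega) hw
  set A1 : Set ℕ := {v : ℕ | v ∈ Set.Icc 1 N ∧ ∃ n z : ℕ, 1 ≤ n ∧ n + 1 ≤ Z ∧ 0 < z ∧
      (v ^ n = w ^ n + z ^ (n + 1) ∨ w ^ n = v ^ n + z ^ (n + 1))} with hA1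
  set A2 : Set ℕ := {B : ℕ | B ∈ Set.Icc 1 N ∧ B ∉ T ∧ Nat.Coprime w B ∧ Sol Z₀ w B} with hA2
  have hA2f : A2.Finite := (Set.finite_Icc 1 N).subset (fun B hB => hB.1)
  have hsub : {v : ℕ | v ∈ Set.Icc 1 N ∧ v ∉ T ∧ (Occur v w ∨ Occur w v)} ⊆ A1 ∪ A2 := by
    rintro v ⟨hv, hvT, h | h⟩
    · obtain ⟨n, z, hn, hv0, hw0', hz, hg, heq⟩ := h
      by_cases hnZ : n + 1 ≤ Z
      · exact Or.inl ⟨hv, n, z, hn, hnZ, hz, Or.inl heq⟩
      · exact Or.inr ⟨hv, hvT, (Occur.cop hg heq hn).symm, n, n, n + 1, z, hn, hn, by omega, hz,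
          Or.inr (Or.inl heq.symm)⟩
    · obtain ⟨n, z, hn, hv0, hw0', hz, hg, heq⟩ := h
      by_cases hnZ : n + 1 ≤ Z
      · exact Or.inl ⟨hv, n, z, hn, hnZ, hz, Or.inr heq⟩
      · exact Or.inr ⟨hv, hvT, Occur.cop hg heq hn, n, n, n + 1, z, hn, hn, by omega, hz,
          Or.inr (Or.inr heq.symm)⟩
  have h1 := (Set.ncard_le_ncard hsub (hf.union hA2f)).trans (Set.ncard_union_le A1 A2)
  have h2 : (({v : ℕ | v ∈ Set.Icc 1 N ∧ v ∉ T ∧ (Occur v w ∨ Occur w v)}.ncard : ℕ) : ℝ) ≤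
      A1.ncard + A2.ncard := by exact_mod_cast h1
  have h3 : (N : ℝ) ^ δ ≤ (N : ℝ) ^ (1 - 1 / (Z : ℝ)) := by
    apply Real.rpow_le_rpow_of_exponent_le hNR
    have : δ ≤ 1 / 2 := min_le_right _ _
    linarith
  have h4 := hN₁ N g2
  calc (({v : ℕ | v ∈ Set.Icc 1 N ∧ v ∉ T ∧ (Occur v w ∨ Occur w v)}.ncard : ℕ) : ℝ) ≤ _ := h2
    _ ≤ 2 * Z * (N : ℝ) ^ (1 - 1 / (Z : ℝ)) + (N : ℝ) ^ (1 - 1 / (Z : ℝ)) := by linarith
    _ = (2 * (Z : ℝ) + 1) * (N : ℝ) ^ (1 - 1 / (Z : ℝ)) := by ring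
    _ ≤ (N : ℝ) ^ (1 / (2 * (Z : ℝ))) * (N : ℝ) ^ (1 - 1 / (Z : ℝ)) := by gcongr
    _ = (N : ℝ) ^ (1 - 1 / (2 * (Z : ℝ))) := by
        rw [← Real.rpow_add hN0]
        congr 1
        field_simp
        ring

end Pool.Agent.Results.MP_c98c49_nt.EachBase
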